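import Pool.Agent.IsoHull27.Final

/-!
# MP_b478d8_an, Q2: there is no dimension-free constant, for any volume fraction

For every `α ∈ (0,1)` and every `ε > 0` there are `n ≥ 1` and a nonempty bounded open convex set
`Ω ⊂ ℝⁿ` that has isoperimetric sets of volume fraction `α`, and every such isoperimetric set `E`
satisfies `|hull(E)| ≥ (1 - ε) |Ω|`. Hence the answer to Q2 is negative for every `α ∈ (0,1/2)`, and
no dimension-free constant exists for `α ≥ 1/2` either.
-/

open MeasureTheory Set Filter Topology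
open scoped ENNReal

namespace Pool.Agent.Results.MP_b478d8_an.NoDimensionFreeConstant

/-- The divergence of a vector field on `ℝⁿ`. -/
noncomputable def divg {n : ℕ} (X : EuclideanSpace ℝ (Fin n) → EuclideanSpace ℝ (Fin n))
    (x : EuclideanSpace ℝ (Fin n)) : ℝ :=
  ∑ i, (fderiv ℝ X x (EuclideanSpace.single i 1)) i

/-- Admissible test fields in `Ω`: `C¹`, compactly supported in `Ω`, with `‖X‖ ≤ 1` everywhere. -/
def TestField {n : ℕ} (Ω : Set (EuclideanSpace ℝ (Fin n)))
    (X : EuclideanSpace ℝ (Fin n) → EuclideanSpace ℝ (Fin n)) : Prop :=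
  ContDiff ℝ 1 X ∧ HasCompactSupport X ∧ tsupport X ⊆ Ω ∧ ∀ x, ‖X x‖ ≤ 1

/-- The relative perimeter `P(E;Ω)` (De Giorgi): the supremum of `∫_E div X` over all admissible test
fields `X` in `Ω`. -/
noncomputable def relPer {n : ℕ} (Ω E : Set (EuclideanSpace ℝ (Fin n))) : ℝ≥0∞ :=
  ⨆ (X : EuclideanSpace ℝ (Fin n) → EuclideanSpace ℝ (Fin n)) (_ : TestField Ω X),
    ENNReal.ofReal (∫ x in E, divg X x)

/-- `E` is an isoperimetric set of volume fraction `α` relative to `Ω`. -/
def IsIsop {n : ℕ} (Ω : Set (EuclideanSpace ℝ (Fin n))) (α : ℝ)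
    (E : Set (EuclideanSpace ℝ (Fin n))) : Prop :=
  MeasurableSet E ∧ E ⊆ Ω ∧ volume E = ENNReal.ofReal α * volume Ω ∧
    ∀ F, MeasurableSet F → F ⊆ Ω → volume F = volume E → relPer Ω E ≤ relPer Ω F

/-- The canonical representative of `E`: the points of `Ω` at which `E` has Lebesgue density `1`. -/
def canon {n : ℕ} (Ω E : Set (EuclideanSpace ℝ (Fin n))) : Set (EuclideanSpace ℝ (Fin n)) :=
  {x ∈ Ω | Tendsto (fun r : ℝ => volume (E ∩ Metric.ball x r) / volume (Metric.ball x r))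
    (𝓝[>] 0) (𝓝 1)}

/-- `hull(E)`: the convex hull of the canonical representative of `E`. -/
def hull {n : ℕ} (Ω E : Set (EuclideanSpace ℝ (Fin n))) : Set (EuclideanSpace ℝ (Fin n)) :=
  convexHull ℝ (canon Ω E)

/-- For every volume fraction `α ∈ (0,1)` and every `ε > 0` there is a bounded open convex set `Ω` in
some `ℝⁿ` such that isoperimetric sets of volume fraction `α` exist in `Ω` and each of them has
finite perimeter and a convex hull of measure at least `(1 - ε) |Ω|`. -/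
theorem result (α : ℝ) (hα : α ∈ Ioo (0 : ℝ) 1) (ε : ℝ) (hε : 0 < ε) :
    ∃ n : ℕ, 1 ≤ n ∧ ∃ Ω : Set (EuclideanSpace ℝ (Fin n)),
      IsOpen Ω ∧ Convex ℝ Ω ∧ Bornology.IsBounded Ω ∧ Ω.Nonempty ∧
      (∃ E, IsIsop Ω α E) ∧
      ∀ E, IsIsop Ω α E →
        relPer Ω E < ⊤ ∧ ENNReal.ofReal (1 - ε) * volume Ω ≤ volume (hull Ω E) :=
  IsoHull.main α hα ε hε

end Pool.Agent.Results.MP_b478d8_an.NoDimensionFreeConstant
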